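import Pool.Agent.H48.PW.All
import Pool.Graph.R_pool_sql_team_seeded_b0a926ef.R795.HamPow.Lower

/-!
# MP_61e9ba_co, Q1 (full answer)

For every `t ≥ 2` the set of all `α > 0` which are good for `t` is the open half-line
`(1 - 1/(2t), ∞)`.  So the threshold is `1 - 1/(2t)`, and it is not attained.

The definitions are those of the problem file (library module `Pool.Graph.R_seed8.TH742.HP.Defs`):
* `cdist i j` is the cyclic distance of `i, j ∈ ℤ/nℤ`;
* `cyclePow n k` is `C_n^k`: `i ≠ j` are adjacent iff their cyclic distance is at most `k`;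
* `IsAlphaSubgraph α G H`: `H ≤ G` and `α d_G(v) ≤ d_H(v)` for all `v`;
* `HasHamPow t H`: there is a cyclic ordering `v` of all vertices in which `v i`, `v j` are adjacent
  whenever the cyclic distance of `i ≠ j` is at most `t`;
* `Good t α`: there is `k₀` such that for all `k ≥ k₀` and all `n ≥ k` (`n ≥ 3`) every `α`-subgraph of
  `C_n^k` contains the `t`-th power of a Hamilton cycle.

The lower bound (no `α ≤ 1 - 1/(2t)` is good) is the library theorem
`Pool.Agent.R795.HamPow.lower`.  The upper bound (every `α > 1 - 1/(2t)` is good) is new; it is proved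
in `Pool/Agent/H48/PW`.
-/

set_option autoImplicit false

namespace Pool.Agent.Results.MP_61e9ba_co.GoodSetDetermined

open Pool.Agent.TH742.HP

/-- The set of the `α > 0` which are good for `t ≥ 2` is `(1 - 1/(2t), ∞)`. -/
theorem result (t : ℕ) (ht : 2 ≤ t) :
    {α : ℝ | 0 < α ∧ Good t α} = Set.Ioi (1 - 1 / (2 * (t : ℝ))) := by
  have ht2 : (2 : ℝ) ≤ t := by exact_mod_cast ht
  have h0 : (0 : ℝ) < 1 - 1 / (2 * (t : ℝ)) := by
    rw [sub_pos, div_lt_one (by positivity)]
    linarith
  ext α
  simp only [Set.mem_setOf_eq, Set.mem_Ioi]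
  constructor
  · rintro ⟨_, hg⟩
    by_contra hcon
    exact Pool.Agent.R795.HamPow.lower t (by omega) α (not_lt.1 hcon) hg
  · intro h
    exact ⟨h0.trans h, Pool.Agent.H48.PW.upper t ht α h⟩

end Pool.Agent.Results.MP_61e9ba_co.GoodSetDetermined
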